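import Pool.Agent.H28.NW.Stmt
import Pool.Agent.H22.N4.Plain

/-!
# Row PLN of nw_modules: from one bounded length to all lengths, on logarithmic windows
-/

set_option autoImplicit false

open Finset Pool.Agent.H6.N4D Pool.Agent.H93.EB Pool.Agent.H28.NW Pool.Agent.H22.N4

namespace Pool.Agent.H54.NW

theorem pln_hs (H j : ℕ) (hH : 1 ≤ H) (hj : j ≤ H) : hs j ≤ 1 + Real.log H := by
  refine (hs_le j).trans ?_
  rcases Nat.eq_zero_or_pos j with h0 | h0
  · subst h0
    have h1 : 0 ≤ Real.log (H : ℝ) := Real.log_natCast_nonneg H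
    simp only [Nat.cast_zero, Real.log_zero]
    linarith
  · have h1 : Real.log (j : ℝ) ≤ Real.log H :=
      Real.log_le_log (by exact_mod_cast h0) (by exact_mod_cast hj)
    linarith

/-- the largest exponential sums on a window -/
theorem pln_SS (X : Wn) (H : ℕ) :
    wlg X (fun n => SS lio H n) ≤ H * wlg X (fun n => M lio H n) := by
  rw [← wlg_mul]
  exact wlg_mono fun n _ => SS_le_M abs_lio H n

theorem pf_PLN (h : W_FIN2) : PlainW := by
  obtain ⟨c₀', H₀, hc₀', h⟩ := h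
  have hpi3 := Real.pi_gt_three
  have hpi4 := Real.pi_lt_four
  have hpi0 : 0 < Real.pi := Real.pi_pos
  have hp1 : 1 / 2 ≤ 2 / Real.pi := by
    rw [div_le_div_iff₀ (by norm_num) hpi0]; linarith
  obtain ⟨c₀, hc₀, hc₀1, hc₀2⟩ : ∃ c₀ : ℝ, 0 < c₀ ∧ c₀ ≤ 1 / 2 ∧ c₀ ≤ c₀' :=
    ⟨min c₀' (1 / 2), lt_min hc₀' (by norm_num), min_le_right _ _, min_le_left _ _⟩
  obtain ⟨H₁, hH₁⟩ : ∃ H₁, H₁ = max H₀ 1 := ⟨_, rfl⟩
  have hH₁1 : 1 ≤ H₁ := by rw [hH₁]; exact le_max_right _ _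
  obtain ⟨X₀, h⟩ := h H₁ (by rw [hH₁]; exact le_max_left _ _)
  have hH₁0 : (0 : ℝ) < H₁ := by exact_mod_cast hH₁1
  set p : ℝ := 2 / Real.pi - c₀ with hp
  have hp0 : 0 ≤ p := by rw [hp]; linarith
  set D : ℝ := 10 + 2 * H₁ with hD
  have hD0 : 0 < D := by positivity
  set E : ℝ := 2 * (|X₀| + 1) with hE
  have hE0 : 0 < E := by positivity
  set c : ℝ := min (1 / 2) (min (c₀ / D) (1 / E)) with hc
  have hc0 : 0 < c := lt_min (by norm_num) (lt_min (by positivity) (by positivity))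
  have hc2 : c ≤ 1 / 2 := min_le_left _ _
  have hc3 : c * D ≤ c₀ := by
    rw [← le_div_iff₀ hD0]; exact (min_le_right _ _).trans (min_le_left _ _)
  have hc4 : c * E ≤ 1 := by
    rw [← le_div_iff₀ hE0]; exact (min_le_right _ _).trans (min_le_right _ _)
  refine ⟨c, hc0, ?_⟩
  intro H Y X θ hH hY hYX hHL hXL
  have hY0 : (0 : ℝ) < Y := by exact_mod_cast hY
  have hX0 : (0 : ℝ) < X := by exact_mod_cast (hY.trans hYX)
  have hlogdiv : Real.log ((X : ℝ) / Y) = Real.log X - Real.log Y :=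
    Real.log_div hX0.ne' hY0.ne'
  rw [hlogdiv] at hHL hXL ⊢
  set L : ℝ := Real.log X - Real.log Y with hL
  rw [div_le_iff₀ hc0] at hH
  have hH2 : (2 : ℝ) ≤ H := by
    by_contra hcon
    push Not at hcon
    have h1 : (H : ℝ) * c ≤ H * (1 / 2) := mul_le_mul_of_nonneg_left hc2 (Nat.cast_nonneg _)
    linarith
  have hH0 : (0 : ℝ) < H := by linarith
  have hH1n : 1 ≤ H := by exact_mod_cast (by linarith : (1 : ℝ) ≤ H)
  have hlog2 : 0.69 ≤ Real.log H := by
    have := Real.log_le_log (by norm_num) hH2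
    linarith [Real.log_two_gt_d9]
  have hcL : 0.69 ≤ c * L := hlog2.trans hHL
  have hL0 : 0 < L := by
    by_contra hcon
    push Not at hcon
    have := mul_nonpos_of_nonneg_of_nonpos hc0.le hcon
    linarith
  have hcL' : c * L ≤ 1 / 2 * L := mul_le_mul_of_nonneg_right hc2 hL0.le
  let W : Wn := ⟨Y, X, hY, hYX, hXL.trans (by linarith)⟩
  have hWL : W.L = L := rfl
  have hX₀ : X₀ ≤ L := by
    have h1 : X₀ ≤ |X₀| := le_abs_self _
    have h2 : 0 ≤ |X₀| := abs_nonneg _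
    have h3 : c * E * L ≤ 1 * L := mul_le_mul_of_nonneg_right hc4 hL0.le
    have h4 : E * 0.69 ≤ E * (c * L) := mul_le_mul_of_nonneg_left hcL hE0.le
    have h5 : E * (c * L) = c * E * L := by ring
    rw [h5] at h4
    have h6 : E * 0.69 ≤ L := by linarith
    rw [hE] at h6
    linarith
  have hL1 : 1 ≤ L := by linarith
  -- the sum over the window
  have e0 : ∑ n ∈ Icc Y X, 1 / (n : ℝ) * ‖∑ h ∈ Icc 1 H,
      (-1 : ℂ) ^ ArithmeticFunction.cardFactors (n + h) *
        Complex.exp (2 * Real.pi * Complex.I * (θ n * h))‖ ≤ wlg W (fun n => SS lio H n) := by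
    unfold wlg
    apply sum_le_sum
    intro n _
    rw [div_eq_mul_one_div (SS lio H n), mul_comm]
    exact mul_le_mul_of_nonneg_right (plain_sum H n (θ n)) (by positivity)
  refine e0.trans ?_
  obtain ⟨k, r, hr, hk⟩ : ∃ k r : ℕ, r < H₁ ∧ H = k * H₁ + r :=
    ⟨H / H₁, H % H₁, Nat.mod_lt _ hH₁1, by rw [mul_comm]; exact (Nat.div_add_mod H H₁).symm⟩
  have hkH : (k : ℝ) * H₁ ≤ H := by
    have : k * H₁ ≤ H := by omega
    exact_mod_cast this
  have hr' : (r : ℝ) ≤ H₁ := by exact_mod_cast hr.le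
  have e1 : wlg W (fun n => SS lio H n) ≤
      ∑ j ∈ range k, wlg W (fun n => SS lio H₁ (n + j * H₁)) + r * wlg W (fun _ => 1) := by
    rw [← wlg_sum, ← wlg_mul, ← wlg_add]
    apply wlg_mono
    intro n _
    have := SS_mul abs_lio H₁ k r n
    rw [← hk] at this
    rwa [mul_one]
  have hSSabs : ∀ n, |SS lio H₁ n| ≤ (H₁ : ℝ) := by
    intro n
    rw [abs_of_nonneg (SS_nonneg _ _)]
    exact SS_le abs_lio H₁ n
  have e2 : ∀ j ∈ range k, wlg W (fun n => SS lio H₁ (n + j * H₁)) ≤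
      p * H₁ * L + 3 * H₁ * (1 + Real.log H) := by
    intro j hj
    rw [mem_range] at hj
    have h1 : j * H₁ ≤ H := by
      have : j * H₁ ≤ k * H₁ := Nat.mul_le_mul_right _ hj.le
      omega
    have h2 := (abs_le.1 (wlg_shift W (j * H₁) (fun n => SS lio H₁ n) hSSabs)).2
    have h3 := pln_hs H (j * H₁) hH1n h1
    have h4 : wlg W (fun n => M lio H₁ n) ≤ p * L := by
      refine (h W lio hX₀ lio_Lio).trans ?_
      rw [hWL]
      apply mul_le_mul_of_nonneg_right _ hL0.le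
      rw [hp]
      linarith
    have h5 := pln_SS W H₁
    have h6 := mul_le_mul_of_nonneg_left h4 hH₁0.le
    have h7 : 3 * (H₁ : ℝ) * hs (j * H₁) ≤ 3 * H₁ * (1 + Real.log H) :=
      mul_le_mul_of_nonneg_left h3 (by positivity)
    linarith
  have e3 := sum_le_sum e2
  rw [sum_const, card_range, nsmul_eq_mul] at e3
  have e4 : (r : ℝ) * wlg W (fun _ => 1) ≤ H₁ * (1 + L) :=
    mul_le_mul hr' (wlg_one_le W) (wlg_nonneg fun _ _ => zero_le_one) hH₁0.le
  -- all terms over `H L`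
  have e5 : (k : ℝ) * (p * H₁ * L + 3 * H₁ * (1 + Real.log H)) ≤
      H * (p * L) + H * (3 * (1 + Real.log H)) := by
    have h1 : (k : ℝ) * (p * H₁ * L + 3 * H₁ * (1 + Real.log H)) =
        (k * H₁) * (p * L + 3 * (1 + Real.log H)) := by ring
    rw [h1, ← mul_add]
    apply mul_le_mul_of_nonneg_right hkH
    have h2 : 0 ≤ p * L := mul_nonneg hp0 hL0.le
    linarith
  have t1 : (H : ℝ) * (3 * (1 + Real.log H)) ≤ H * (9 * (c * L)) :=
    mul_le_mul_of_nonneg_left (by linarith) hH0.le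
  have t3 : (H₁ : ℝ) * (1 + L) ≤ H * (2 * H₁ * c * L) := by
    have h2 : (1 + L) ≤ 2 * L := by linarith
    have h3 : (H₁ : ℝ) * (1 + L) ≤ H₁ * (2 * L) := mul_le_mul_of_nonneg_left h2 hH₁0.le
    have h4 : 2 * L * (H₁ : ℝ) * 1 ≤ 2 * L * H₁ * (H * c) :=
      mul_le_mul_of_nonneg_left hH (by positivity)
    linarith only [h3, h4]
  have t5 : p + 9 * c + 2 * H₁ * c ≤ 2 / Real.pi - c := by
    rw [hD] at hc3
    rw [hp]
    linarith only [hc3]
  have t6 : (H : ℝ) * L * (p + 9 * c + 2 * H₁ * c) ≤ H * L * (2 / Real.pi - c) :=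
    mul_le_mul_of_nonneg_left t5 (by positivity)
  calc wlg W (fun n => SS lio H n) ≤ H * (p * L) + H * (9 * (c * L)) + H * (2 * H₁ * c * L) := by
        linarith
    _ = H * L * (p + 9 * c + 2 * H₁ * c) := by ring
    _ ≤ H * L * (2 / Real.pi - c) := t6
    _ = (2 / Real.pi - c) * H * L := by ring

end Pool.Agent.H54.NW
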